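import Pool.Agent.Lib.MP_df59e7_lc_Y.NumD
import Pool.Agent.Lib.MP_df59e7_lc.FinB

set_option autoImplicit false

/-!
# MP_df59e7_lc: roadmaps of size `(k s d)^(O(k log log k))`

Let `S` be a bounded semialgebraic subset of `ℝ^k`, `k ≥ 1`, defined by a monotone Boolean
combination of the conditions `P_i ≥ 0` and `P_i ≤ 0`, where `P_1, ..., P_s` have degree at most
`d`, and let `A` be a finite set of points of `S`. For all `β ≥ 2` and `f` with
`k ≤ β^(2^f - 1)` there is a roadmap of `S` which contains `A` and whose size parameter is at most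
`(|A| + 1) (2^(2^f + β (f + 1)) (k + 1) (s d + 1))^(116 (k + 1) (f + 1))`.

For fixed `f` and `β = ⌈k^(1/(2^f - 1))⌉` the exponent is `O(k)`. With `β = 2` and
`f = ⌈log_2 (⌈log_2 k⌉ + 1)⌉` (`loglog k`) the bound is at most
`(|A| + 1) (2 (k + 1) (s d + 1))^(696 (k + 1) (f + 1))` (theorem `sizeBound_loglog`), that is
`(|A| + 1) (k (s d + 1))^(O(k log log k))`.
-/

namespace Pool.Agent.Results.MP_df59e7_lc.DoublyLogarithmicRoadmaps

open MvPolynomial

/-- The size bound `(m + 1) (2^(2^f + β (f+1)) (k+1) (s d + 1))^(116 (k+1) (f+1))`. -/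
def sizeBound (k s d f β m : ℕ) : ℕ :=
  (m + 1) * (2 ^ (2 ^ f + β * (f + 1)) * ((k + 1) * (s * d + 1))) ^ (116 * (k + 1) * (f + 1))

/-- The linear form `x ↦ ∑ l, j^l x_l`. -/
noncomputable def linForm {k : ℕ} (j : ℕ) (x : Fin k → ℝ) : ℝ :=
  ∑ l : Fin k, (j : ℝ) ^ (l : ℕ) * x l

/-- The real algebraic set of all `x` with `q a j (x_a, linForm j x) = 0` for all `a` and `j`. -/
def algSet {k R : ℕ} (q : Fin k → Fin R → MvPolynomial (Fin 2) ℝ) : Set (Fin k → ℝ) :=
  {x | ∀ (a : Fin k) (j : Fin R), eval ![x a, linForm (j : ℕ) x] (q a j) = 0}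

/-- The conditions of a roadmap on the subset `M` of `S`: it meets every connected component of
`S` in a nonempty connected set, and it meets every connected component of every slice
`S ∩ {x_0 = t}`. -/
structure RoadmapConditions {k : ℕ} [NeZero k] (S M : Set (Fin k → ℝ)) : Prop where
  subset : M ⊆ S
  connected : ∀ x ∈ S, IsConnected (M ∩ connectedComponentIn S x)
  slices : ∀ x ∈ S, (M ∩ connectedComponentIn {y | y ∈ S ∧ y 0 = x 0} x).Nonempty

theorem result (k s d f β : ℕ) [NeZero k] (hβ : 2 ≤ β) (hkb : k ≤ β ^ (2 ^ f - 1))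
    (P : Fin s → MvPolynomial (Fin k) ℝ)
    (hP : ∀ i, (P i).totalDegree ≤ d)
    (Φ : (Fin s → Prop) → (Fin s → Prop) → Prop)
    (hΦ : ∀ f f' g g' : Fin s → Prop, (∀ i, f i → f' i) → (∀ i, g i → g' i) → Φ f g → Φ f' g')
    (S : Set (Fin k → ℝ))
    (hS : S = {x | Φ (fun i => 0 ≤ eval x (P i)) (fun i => eval x (P i) ≤ 0)})
    (hb : Bornology.IsBounded S)
    (A : Finset (Fin k → ℝ)) (hA : ↑A ⊆ S)
    (N : ℕ) (hN : N = sizeBound k s d f β A.card) :
    ∃ (q : Fin k → Fin (k * (N + 1) ^ 2) → MvPolynomial (Fin 2) ℝ) (M : Set (Fin k → ℝ)),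
      -- bivariate polynomials of degree at most `N`
      (∀ a j, q a j ≠ 0 ∧ (q a j).totalDegree ≤ N) ∧
      -- the algebraic set has at most `N` points on all but few hyperplanes `x_a = t`
      (∀ a, {t : ℝ | (N : ℕ∞) < (algSet q ∩ {x | x a = t}).encard}.encard ≤
        ((k * (N + 1) ^ 2 * N : ℕ) : ℕ∞)) ∧
      -- `M` is a union of connected components of `S ∩ algSet q`
      M ⊆ S ∩ algSet q ∧
      (∀ x ∈ M, connectedComponentIn (S ∩ algSet q) x ⊆ M) ∧
      -- `M` contains the given points and is a roadmap of `S`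
      ↑A ⊆ M ∧ RoadmapConditions S M := by
  obtain ⟨M0, hM0⟩ := RM90.closed_Y d P hP Φ hΦ S hS hb A hA β f hβ hkb
  have hNN : N = (A.card + 1) * RM90.QY k (s * d + 1) β f ^ (116 * (k + 1) * (f + 1)) := hN
  rw [← hNN] at hM0
  obtain ⟨q, M, h1, h2, h3, h4, h5, h6, h7⟩ := RM90.fin_of_lmap S A N M0 hM0
  exact ⟨q, M, h1, h2, h3, h4, h5, ⟨fun x hx => (h3 hx).1, h6, h7⟩⟩

/-- `⌈log_2 (⌈log_2 k⌉ + 1)⌉`. -/
def loglog (k : ℕ) : ℕ := Nat.clog 2 (Nat.clog 2 k + 1)

/-- The size bound for `β = 2`. -/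
theorem sizeBound_loglog (k s d m : ℕ) (hk : 1 ≤ k) :
    k ≤ 2 ^ (2 ^ loglog k - 1) ∧
    sizeBound k s d (loglog k) 2 m ≤
      (m + 1) * (2 * ((k + 1) * (s * d + 1))) ^ (696 * (k + 1) * (loglog k + 1)) := by
  refine ⟨RM90.clog_pow k, ?_⟩
  unfold sizeBound
  apply Nat.mul_le_mul_left
  calc (2 ^ (2 ^ loglog k + 2 * (loglog k + 1)) * ((k + 1) * (s * d + 1))) ^
          (116 * (k + 1) * (loglog k + 1))
      ≤ ((2 * ((k + 1) * (s * d + 1))) ^ 6) ^ (116 * (k + 1) * (loglog k + 1)) :=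
        Nat.pow_le_pow_left (RM90.QY_clog k (s * d + 1) hk (Nat.succ_le_succ (Nat.zero_le _))) _
    _ = (2 * ((k + 1) * (s * d + 1))) ^ (696 * (k + 1) * (loglog k + 1)) := by
        rw [← pow_mul, show 6 * (116 * (k + 1) * (loglog k + 1)) =
          696 * (k + 1) * (loglog k + 1) by ring]

end Pool.Agent.Results.MP_df59e7_lc.DoublyLogarithmicRoadmaps
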